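import Pool.Agent.U508.TD.Stm
import Pool.Agent.H728R2.LHY.Gen

/-!
# Project TD, package COND

The number of particles in the condensate is the occupation of momentum zero.
-/

set_option autoImplicit false

open MeasureTheory UnitAddTorus
open scoped ENNReal ComplexConjugate

namespace Pool.Agent.U333.TD

open Pool.Agent.W761.CB Pool.Agent.H751R2.LHY Pool.Agent.U508.TD

noncomputable section

/-- characters -/
theorem mF_add {d : Type*} [Fintype d] (n : d → ℤ) (x y : UnitAddTorus d) :
    mFourier n (x + y) = mFourier n x * mFourier n y := by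
  simp only [mFourier, ContinuousMap.coe_mk, ← Finset.prod_mul_distrib]
  refine Finset.prod_congr rfl fun i _ => ?_
  rw [fourier_apply, fourier_apply, fourier_apply, Pi.add_apply, smul_add, AddCircle.toCircle_add,
    Circle.coe_mul]

theorem mF_nrm {d : Type*} [Fintype d] (n : d → ℤ) (x : UnitAddTorus d) : ‖mFourier n x‖ = 1 := by
  simp only [mFourier, ContinuousMap.coe_mk, norm_prod, fourier_apply, Circle.norm_coe,
    Finset.prod_const_one]

theorem mF_conj_mul {d : Type*} [Fintype d] (n : d → ℤ) (x : UnitAddTorus d) :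
    conj (mFourier n x) * mFourier n x = 1 := by
  rw [mul_comm, Complex.mul_conj, Complex.normSq_eq_norm_sq, mF_nrm]
  norm_num

theorem coef_shift {N : ℕ} (ψ : Cfg N → ℂ) (v : Cfg N) (M : Fin N → Mom) :
    coef (fun x => ψ (x + v)) M = mFourier (unc M) v * coef ψ M := by
  unfold coef mFourierCoeff
  rw [← integral_const_mul]
  have h := integral_add_right_eq_self (μ := (volume : Measure (Cfg N)))
    (fun t => mFourier (unc M) v * (mFourier (-unc M) t • ψ t)) v
  rw [← h]
  refine integral_congr_ae (Filter.Eventually.of_forall fun t => ?_)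
  simp only [smul_eq_mul]
  rw [mF_add, mFourier_neg (x := v)]
  have := mF_conj_mul (unc M) v
  linear_combination (-(mFourier (-unc M) t * ψ (t + v))) * this

theorem pars {N : ℕ} {f g : Cfg N → ℂ} (hf : MemLp f 2) (hg : MemLp g 2) :
    HasSum (fun M : Fin N → Mom => conj (coef f M) * coef g M) (∫ x, conj (f x) * g x) := by
  have h := hasSum_prod_mFourierCoeff (hf.toLp f) (hg.toLp g)
  have h1 : (∫ t, conj ((hf.toLp f) t) * (hg.toLp g) t) = ∫ x, conj (f x) * g x := by
    apply integral_congr_ae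
    filter_upwards [hf.coeFn_toLp, hg.coeFn_toLp] with x hx hx2
    rw [hx, hx2]
  rw [h1] at h
  simp only [Gn.coef_toLp] at h
  exact (Gn.uncE N).hasSum_iff.2 h

/-- the autocorrelation -/
theorem auto {N : ℕ} {ψ : Cfg N → ℂ} (hψ : MemLp ψ 2) (hs : ∀ v : Cfg N, MemLp (fun x => ψ (x + v)) 2)
    (v : Cfg N) :
    HasSum (fun M : Fin N → Mom => (mFourier (unc M) v).re * ‖coef ψ M‖ ^ 2)
      (∫ x, conj (ψ x) * ψ (x + v)).re := by
  have h := pars hψ (hs v)
  have h1 := Complex.hasSum_re h
  refine h1.congr_fun fun M => ?_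
  rw [coef_shift]
  have : conj (coef ψ M) * (mFourier (unc M) v * coef ψ M) =
      mFourier (unc M) v * (((‖coef ψ M‖ ^ 2 : ℝ)) : ℂ) := by
    have h2 : conj (coef ψ M) * coef ψ M = (((‖coef ψ M‖ ^ 2 : ℝ)) : ℂ) := by
      rw [mul_comm, Complex.mul_conj, Complex.normSq_eq_norm_sq]
    rw [← h2]; ring
  rw [this, Complex.re_mul_ofReal]

/-- nontrivial characters -/
theorem exists_ne {d : Type*} [Fintype d] {n : d → ℤ} (hn : n ≠ 0) :
    ∃ v : UnitAddTorus d, mFourier n v ≠ 1 := by
  by_contra hcon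
  push Not at hcon
  have h1 := Gn.int_mFourier n
  rw [if_neg hn] at h1
  simp only [hcon] at h1
  simp at h1

section Main

variable {L : ℝ} [hL : Fact (0 < L)]

/-- one point of the torus, rescaled -/
def lo1 (h : Tor 3 L) : T3 := fun a => (sc L).symm (h a)

theorem lo1_add (h k : Tor 3 L) : lo1 (h + k) = lo1 h + lo1 k := by
  funext a
  simp [lo1]

theorem lo1_cont : Continuous (lo1 : Tor 3 L → T3) := by
  refine continuous_pi fun a => ?_
  have h1 : Continuous ((sc L).symm : AddCircle L → UnitAddCircle) :=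
    (AddCircle.homeomorphAddCircle (1 : ℝ) L one_ne_zero (ne_of_gt hL.out)).continuous_symm
  exact h1.comp (continuous_apply a)

theorem lo1_surj (v : T3) : ∃ h : Tor 3 L, lo1 h = v :=
  ⟨fun a => sc L (v a), by funext a; simp [lo1]⟩

theorem vol_tor : (volume : Measure (Tor 3 L)).real Set.univ = L ^ 3 := by
  rw [Measure.real, show (Set.univ : Set (Tor 3 L)) = Set.univ.pi fun _ => Set.univ by simp,
    volume_pi_pi]
  simp only [AddCircle.measure_univ, Finset.prod_const, Finset.card_univ, Fintype.card_fin]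
  rw [ENNReal.toReal_pow, ENNReal.toReal_ofReal hL.out.le]

/-- characters on the torus of side `L` -/
theorem int_char (n : Mom) :
    ∫ h : Tor 3 L, (mFourier n (lo1 h)).re = if n = 0 then L ^ 3 else 0 := by
  split_ifs with hn
  · subst hn
    simp only [mFourier_zero, ContinuousMap.one_apply, Complex.one_re]
    rw [integral_const, vol_tor]
    simp
  · have hc : Continuous (fun h : Tor 3 L => mFourier n (lo1 h)) := (Gn.cont_mF n).comp lo1_cont
    have hi : Integrable (fun h : Tor 3 L => mFourier n (lo1 h)) :=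
      hc.integrable_of_hasCompactSupport (HasCompactSupport.of_compactSpace _)
    obtain ⟨v, hv⟩ := exists_ne hn
    obtain ⟨w, rfl⟩ := lo1_surj (L := L) v
    have h1 := integral_add_right_eq_self (μ := (volume : Measure (Tor 3 L)))
      (fun h => mFourier n (lo1 h)) w
    simp only [lo1_add, mF_add] at h1
    rw [integral_mul_const] at h1
    have h2 : ∫ h : Tor 3 L, mFourier n (lo1 h) = 0 := by
      by_contra h0
      exact hv (mul_left_cancel₀ h0 (by rw [h1, mul_one]))
    have h3 := Complex.reCLM.integral_comp_comm hi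
    simp only [Complex.reCLM_apply] at h3
    rw [h3, h2]
    simp

/-- the shift of the particle `i` -/
def sh {N : ℕ} (i : Fin N) (h : Tor 3 L) : Cfg N := fun p => if p.1 = i then lo1 h p.2 else 0

theorem up_sh {N : ℕ} (i : Fin N) (h : Tor 3 L) (y : Cfg N) :
    up L (y + sh i h) = up L y + Pi.single i h := by
  funext j a
  by_cases hj : j = i
  · subst hj
    simp [up, sh, lo1]
  · simp [up, sh, hj]

theorem mF_sh {N : ℕ} (M : Fin N → Mom) (i : Fin N) (h : Tor 3 L) :
    mFourier (unc M) (sh i h) = mFourier (M i) (lo1 h) := by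
  simp only [mFourier, ContinuousMap.coe_mk, unc, sh]
  rw [Fintype.prod_prod_type, Finset.prod_eq_single i]
  · simp
  · intro j _ hj
    simp [hj]
  · simp

/-- change of variables -/
theorem int_scale (h1 : S_SCALE) {N : ℕ} (G : (Fin N → Tor 3 L) → ℝ) (hG : Measurable G) :
    ∫ x, G x = L ^ (3 * N) * ∫ y : Cfg N, G (up L y) := by
  obtain ⟨m1, -, e⟩ := h1 L N
  have h2 := integral_map (μ := (volume : Measure (Cfg N))) m1.aemeasurable
    (f := G) hG.aestronglyMeasurable
  rw [← h2, e, integral_smul_measure, ENNReal.toReal_ofReal (by have := hL.out; positivity),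
    smul_eq_mul, ← mul_assoc, mul_inv_cancel₀, one_mul]
  exact pow_ne_zero _ (ne_of_gt hL.out)

theorem lint_scale (h1 : S_SCALE) {N : ℕ} (G : (Fin N → Tor 3 L) → ℝ≥0∞) (hG : Measurable G) :
    ∫⁻ x, G x = ENNReal.ofReal (L ^ (3 * N)) * ∫⁻ y : Cfg N, G (up L y) := by
  obtain ⟨m1, -, e⟩ := h1 L N
  have h2 := lintegral_map (μ := (volume : Measure (Cfg N))) hG m1
  rw [← h2, e, lintegral_smul_measure, smul_eq_mul, ← mul_assoc, ← ENNReal.ofReal_mul (by
    have := hL.out; positivity), mul_inv_cancel₀, ENNReal.ofReal_one, one_mul]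
  exact pow_ne_zero _ (ne_of_gt hL.out)

theorem dn_meas (h1 : S_SCALE) {N : ℕ} {Ψ : (Fin N → Tor 3 L) → ℂ} (hm : Measurable Ψ) :
    Measurable (dn L Ψ) := by
  obtain ⟨m1, -, e⟩ := h1 L N
  exact (hm.comp m1).const_mul _

theorem dn_norm (h1 : S_SCALE) {N : ℕ} {Ψ : (Fin N → Tor 3 L) → ℂ} (hm : Measurable Ψ)
    (hn : ∫⁻ x, ‖Ψ x‖ₑ ^ 2 = 1) : ∫⁻ y, ‖dn L Ψ y‖ₑ ^ 2 = 1 := by
  rw [lint_scale h1 _ (hm.enorm.pow_const 2)] at hn
  have hm2 : Measurable (fun y : Cfg N => ‖Ψ (up L y)‖ₑ ^ 2) :=
    ((hm.comp (h1 L N).1).enorm).pow_const 2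
  rw [← hn, ← lintegral_const_mul _ hm2]
  refine lintegral_congr fun y => ?_
  have : (0 : ℝ) ≤ L ^ (3 * N) := by have := hL.out; positivity
  rw [dn, enorm_mul, mul_pow]
  congr 1
  rw [← ofReal_norm, Complex.norm_real, Real.norm_of_nonneg (Real.sqrt_nonneg _),
    ← ENNReal.ofReal_pow (Real.sqrt_nonneg _), Real.sq_sqrt this]

theorem memLp_of {N : ℕ} {ψ : Cfg N → ℂ} (hm : Measurable ψ) (hn : ∫⁻ y, ‖ψ y‖ₑ ^ 2 = 1) :
    MemLp ψ 2 := by
  refine ⟨hm.aestronglyMeasurable, ?_⟩
  rw [eLpNorm_lt_top_iff_lintegral_rpow_enorm_lt_top (by norm_num) (by norm_num)]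
  simp only [ENNReal.toReal_ofNat, ENNReal.rpow_ofNat]
  rw [hn]
  exact ENNReal.one_lt_top

theorem one (h1 : S_SCALE) {N : ℕ} {Ψ : (Fin N → Tor 3 L) → ℂ} (hm : Measurable Ψ)
    (hn : ∫⁻ x, ‖Ψ x‖ₑ ^ 2 = 1) (i : Fin N) :
    ∫ x, ∫ y, ((starRingEnd ℂ) (Ψ x) * Ψ (Function.update x i y)).re =
      L ^ 3 * ∑' M : Fin N → Mom, (if M i = 0 then ‖coef (dn L Ψ) M‖ ^ 2 else 0) := by
  have hL0 : 0 < L := hL.out
  set ψ := dn L Ψ with hψd
  have hψ : MemLp ψ 2 := memLp_of (dn_meas h1 hm) (dn_norm h1 hm hn)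
  have hs : ∀ v : Cfg N, MemLp (fun x => ψ (x + v)) 2 := fun v =>
    hψ.comp_measurePreserving (measurePreserving_add_right volume v)
  set f : (Fin N → Tor 3 L) → Tor 3 L → ℝ := fun x h => (conj (Ψ x) * Ψ (x + Pi.single i h)).re
    with hf
  have hsm : Measurable (fun h : Tor 3 L => (Pi.single i h : Fin N → Tor 3 L)) := by
    refine measurable_pi_lambda _ fun j => ?_
    by_cases hj : j = i
    · subst hj
      have : (fun h : Tor 3 L => (Pi.single j h : Fin N → Tor 3 L) j) = id := by
        funext h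
        simp
      rw [this]
      exact measurable_id
    · have : (fun h : Tor 3 L => (Pi.single i h : Fin N → Tor 3 L) j) = fun _ => 0 := by
        funext h
        simp [Pi.single_eq_of_ne hj]
      rw [this]
      exact measurable_const
  have hfm : Measurable (Function.uncurry f) := by
    refine Complex.measurable_re.comp (Measurable.mul ?_ ?_)
    · exact (continuous_star.measurable).comp (hm.comp measurable_fst)
    · exact hm.comp (measurable_fst.add (hsm.comp measurable_snd))
  have e1 : ∀ x, ∫ y, ((starRingEnd ℂ) (Ψ x) * Ψ (Function.update x i y)).re = ∫ h, f x h := by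
    intro x
    have h2 := integral_add_left_eq_self (μ := (volume : Measure (Tor 3 L)))
      (fun y => ((starRingEnd ℂ) (Ψ x) * Ψ (Function.update x i y)).re) (x i)
    rw [← h2]
    refine integral_congr_ae (Filter.Eventually.of_forall fun h => ?_)
    have : Function.update x i (x i + h) = x + Pi.single i h := by
      funext j
      by_cases hj : j = i
      · subst hj; simp
      · simp [hj]
    simp only [hf, this]
  have hint : Integrable (Function.uncurry f)
      ((volume : Measure (Fin N → Tor 3 L)).prod (volume : Measure (Tor 3 L))) := by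
    refine ⟨hfm.aestronglyMeasurable, ?_⟩
    rw [HasFiniteIntegral, lintegral_prod_symm _ hfm.enorm.aemeasurable]
    have hb : ∀ h : Tor 3 L, ∫⁻ x, ‖Function.uncurry f (x, h)‖ₑ ≤ 2 := by
      intro h
      have k1 : ∫⁻ x : Fin N → Tor 3 L, ‖Ψ (x + Pi.single i h)‖ₑ ^ 2 = 1 := by
        rw [← hn]
        simp only [add_comm _ (Pi.single i h : Fin N → Tor 3 L)]
        exact lintegral_add_left_eq_self (μ := (volume : Measure (Fin N → Tor 3 L)))
          (fun x => ‖Ψ x‖ₑ ^ 2) (Pi.single i h : Fin N → Tor 3 L)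
      calc ∫⁻ x, ‖Function.uncurry f (x, h)‖ₑ
          ≤ ∫⁻ x : Fin N → Tor 3 L, (‖Ψ x‖ₑ ^ 2 + ‖Ψ (x + Pi.single i h)‖ₑ ^ 2) := by
            refine lintegral_mono fun x => ?_
            have k2 : ‖Function.uncurry f (x, h)‖ ≤ ‖Ψ x‖ ^ 2 + ‖Ψ (x + Pi.single i h)‖ ^ 2 := by
              simp only [Function.uncurry_apply_pair, hf]
              refine (Complex.abs_re_le_norm _).trans ?_
              rw [norm_mul, RCLike.norm_conj]
              nlinarith [sq_nonneg (‖Ψ x‖ - ‖Ψ (x + Pi.single i h)‖), norm_nonneg (Ψ x),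
                norm_nonneg (Ψ (x + Pi.single i h))]
            calc ‖Function.uncurry f (x, h)‖ₑ = ENNReal.ofReal ‖Function.uncurry f (x, h)‖ :=
                  (ofReal_norm _).symm
              _ ≤ ENNReal.ofReal (‖Ψ x‖ ^ 2 + ‖Ψ (x + Pi.single i h)‖ ^ 2) :=
                  ENNReal.ofReal_le_ofReal k2
              _ = ‖Ψ x‖ₑ ^ 2 + ‖Ψ (x + Pi.single i h)‖ₑ ^ 2 := by
                  rw [ENNReal.ofReal_add (by positivity) (by positivity),
                    ENNReal.ofReal_pow (norm_nonneg _), ENNReal.ofReal_pow (norm_nonneg _),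
                    ofReal_norm, ofReal_norm]
        _ = 2 := by
            rw [lintegral_add_left (hm.enorm.pow_const 2), hn, k1]
            norm_num
    calc ∫⁻ y, ∫⁻ x, ‖Function.uncurry f (x, y)‖ₑ ≤ ∫⁻ _ : Tor 3 L, 2 := lintegral_mono hb
      _ = 2 * volume (Set.univ : Set (Tor 3 L)) := by rw [lintegral_const]
      _ < ⊤ := ENNReal.mul_lt_top (by norm_num) (measure_lt_top _ _)
  have e2 : ∀ h, ∫ x, f x h = ∑' M : Fin N → Mom, (mFourier (M i) (lo1 h)).re * ‖coef ψ M‖ ^ 2 := by
    intro h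
    have k0 : Measurable (fun x => f x h) := hfm.comp (measurable_id.prodMk measurable_const)
    rw [int_scale h1 (fun x => f x h) k0, ← integral_const_mul]
    have k1 : ∀ y : Cfg N, L ^ (3 * N) * f (up L y) h = (conj (ψ y) * ψ (y + sh i h)).re := by
      intro y
      simp only [hf, hψd, dn, up_sh]
      have k2 : conj (((Real.sqrt (L ^ (3 * N)) : ℝ) : ℂ) * Ψ (up L y)) *
          (((Real.sqrt (L ^ (3 * N)) : ℝ) : ℂ) * Ψ (up L y + Pi.single i h)) =
          ((L ^ (3 * N) : ℝ) : ℂ) * (conj (Ψ (up L y)) * Ψ (up L y + Pi.single i h)) := by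
        rw [map_mul, Complex.conj_ofReal]
        have k3 : ((Real.sqrt (L ^ (3 * N)) : ℝ) : ℂ) * ((Real.sqrt (L ^ (3 * N)) : ℝ) : ℂ) =
            ((L ^ (3 * N) : ℝ) : ℂ) := by
          rw [← Complex.ofReal_mul, Real.mul_self_sqrt (by positivity)]
        rw [← k3]; ring
      rw [k2, Complex.re_ofReal_mul]
    simp only [k1]
    have k4 : Integrable (fun y : Cfg N => conj (ψ y) * ψ (y + sh i h)) :=
      (hψ.star).integrable_mul (hs (sh i h))
    have k5 := Complex.reCLM.integral_comp_comm k4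
    simp only [Complex.reCLM_apply] at k5
    rw [k5]
    have k6 := (auto hψ hs (sh i h)).tsum_eq
    simp only [mF_sh] at k6
    rw [k6]
  have hsum := (Gn.coef_hasSum hψ).summable
  have hc : ∀ M : Fin N → Mom, Continuous fun h : Tor 3 L =>
      (mFourier (M i) (lo1 h)).re * ‖coef ψ M‖ ^ 2 := fun M =>
    (Complex.continuous_re.comp ((Gn.cont_mF (M i)).comp lo1_cont)).mul continuous_const
  have hFi : ∀ M : Fin N → Mom, Integrable fun h : Tor 3 L =>
      (mFourier (M i) (lo1 h)).re * ‖coef ψ M‖ ^ 2 := fun M =>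
    (hc M).integrable_of_hasCompactSupport (HasCompactSupport.of_compactSpace _)
  have hre : ∀ (M : Fin N → Mom) (h : Tor 3 L), |(mFourier (M i) (lo1 h)).re| ≤ 1 := fun M h =>
    (Complex.abs_re_le_norm _).trans (mF_nrm _ _).le
  have hFs : Summable fun M : Fin N → Mom => ∫ h : Tor 3 L,
      ‖(mFourier (M i) (lo1 h)).re * ‖coef ψ M‖ ^ 2‖ := by
    refine Summable.of_nonneg_of_le (fun M => integral_nonneg fun h => norm_nonneg _) (fun M => ?_)
      (hsum.mul_left (L ^ 3))
    calc ∫ h : Tor 3 L, ‖(mFourier (M i) (lo1 h)).re * ‖coef ψ M‖ ^ 2‖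
        ≤ ∫ _ : Tor 3 L, ‖coef ψ M‖ ^ 2 := by
          refine integral_mono (hFi M).norm (integrable_const _) fun h => ?_
          simp only [norm_mul, norm_pow, Real.norm_eq_abs, abs_norm]
          exact mul_le_of_le_one_left (sq_nonneg _) (hre M h)
      _ = L ^ 3 * ‖coef ψ M‖ ^ 2 := by
          rw [integral_const, vol_tor, smul_eq_mul]
  have e3 := hasSum_integral_of_summable_integral_norm hFi hFs
  simp only [e1]
  rw [integral_integral_swap hint]
  simp only [e2]
  rw [← e3.tsum_eq, ← tsum_mul_left]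
  refine tsum_congr fun M => ?_
  rw [integral_mul_const, int_char]
  split_ifs <;> simp

/-- **COND** -/
theorem t_COND (h1 : S_SCALE) : S_COND := by
  intro L hL N Ψ hm hn
  have hL0 : 0 < L := hL.out
  have hψ : MemLp (dn L Ψ) 2 := memLp_of (dn_meas h1 hm) (dn_norm h1 hm hn)
  have hsum := (Gn.coef_hasSum hψ).summable
  have hsi : ∀ i ∈ (Finset.univ : Finset (Fin N)), Summable fun M : Fin N → Mom =>
      (if M i = 0 then ‖coef (dn L Ψ) M‖ ^ 2 else 0) := by
    intro i _
    refine Summable.of_nonneg_of_le (fun M => ?_) (fun M => ?_) hsum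
    · split_ifs <;> positivity
    · split_ifs
      · exact le_rfl
      · positivity
  rw [condN]
  simp only [one h1 hm hn]
  rw [← Finset.mul_sum, ← mul_assoc, inv_mul_cancel₀ (by positivity), one_mul,
    ← Summable.tsum_finsetSum hsi, occE, ENNReal.tsum_toReal_eq (fun _ => ENNReal.ofReal_ne_top)]
  refine tsum_congr fun M => ?_
  rw [ENNReal.toReal_ofReal (by positivity), ← Finset.sum_filter, Finset.sum_const, nsmul_eq_mul]

end Main

end

end Pool.Agent.U333.TD
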